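import Pool.Agent.MOFunctions.Reduction

open Filter Topology

namespace Pool.Agent.Results.MP_a187e6_nt.CompletelyMultiplicative

open Pool.Agent.MOFunctions

/-- Let `f` be a completely multiplicative MO function such that `|f(p)| ≤ 1/p` for all primes `p`
outside a finite set `E` of primes. Then `limsup x^(1/2) |S_f(x)| ≥ 1/K`, where
`K = |ζ(1/2)| ∏_{p ∈ E} (1 + √p |f(p)|)`, in the form: for every `c` with `c K < 1` there are
arbitrarily large real `x` with `|S_f(x)| > c x^(-1/2)`. In particular `S_f(x) = Ω(x^(-1/2))`. -/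
theorem result (f : ℕ → ℂ) (hf : IsMO f)
    (hcm : ∀ m n : ℕ, 0 < m → 0 < n → f (m * n) = f m * f n)
    (E : Finset ℕ) (hEp : ∀ p ∈ E, p.Prime)
    (hE : ∀ p : ℕ, p.Prime → p ∉ E → ‖f p‖ ≤ 1 / (p : ℝ))
    (c : ℝ) (hc : c * (‖riemannZeta (1 / 2)‖ * ∏ p ∈ E, (1 + √(p : ℝ) * ‖f p‖)) < 1) :
    ∃ᶠ x : ℝ in atTop, c * x ^ (-(1 / 2 : ℝ)) < ‖S f x‖ := by
  intro hev
  set h : ℕ → ℂ := fun n => if n = 0 then 0 else f n with hh
  have hhn : ∀ n : ℕ, n ≠ 0 → h n = f n := fun n hn => by simp [hh, hn]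
  have hcmh : CM h := by
    refine ⟨by simp [hh], by rw [hhn 1 one_ne_zero, hf.map_one], fun m n => ?_⟩
    rcases Nat.eq_zero_or_pos m with hm | hm
    · simp [hh, hm]
    rcases Nat.eq_zero_or_pos n with hn | hn
    · simp [hh, hn]
    rw [hhn m hm.ne', hhn n hn.ne', hhn (m * n) (Nat.mul_pos hm hn).ne', hcm m n hm hn]
  have hS : ∀ x : ℝ, S h x = S f x := by
    intro x
    rw [S, S]
    apply Finset.sum_congr rfl
    intro n hn
    rw [Finset.mem_Icc] at hn
    exact hhn n (by omega)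
  have hev' : ∀ᶠ x : ℝ in atTop, ‖S h x‖ ≤ max c 0 * x ^ (-(1 / 2 : ℝ)) := by
    filter_upwards [hev, eventually_ge_atTop 0] with x hx hx0
    rw [not_lt] at hx
    rw [hS]
    refine hx.trans ?_
    gcongr
    exact le_max_left _ _
  have hmain := cm_omega_finite E hcmh hEp (fun p hp hpE => by
    rw [hhn p hp.ne_zero, ← one_div]; exact hE p hp hpE) (le_max_right c 0) hev'
  have hprod : ∏ p ∈ E, (1 + √(p : ℝ) * ‖h p‖) = ∏ p ∈ E, (1 + √(p : ℝ) * ‖f p‖) := by
    apply Finset.prod_congr rfl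
    intro p hp
    rw [hhn p (hEp p hp).ne_zero]
  rw [hprod] at hmain
  rcases le_total c 0 with h0 | h0
  · rw [max_eq_right h0, zero_mul] at hmain
    linarith
  · rw [max_eq_left h0] at hmain
    linarith

end Pool.Agent.Results.MP_a187e6_nt.CompletelyMultiplicative
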