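import Pool.Agent.MOFunctions.Defs
import Pool.Agent.MP_a187e6.Assembly

/-!
Q1 of MP_a187e6_nt is false: there is an MO function `f` with `S_f(x) = o(x^(-1/2))`, even with
`S_f(x) = O(x^(-1/2-η))` for some `η > 0`.
-/

open Filter Asymptotics

open Pool.Agent.MOFunctions (IsMO S)

namespace Pool.Agent.Results.MP_a187e6_nt.CounterexampleQ1

/-- There is an MO function whose partial sums are `o(x^(-1/2))`; they are even
`O(x^(-1/2-η))` for some `η > 0`. -/
theorem result : ∃ f : ℕ → ℂ, IsMO f ∧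
    (fun x : ℝ => S f x) =o[atTop] (fun x : ℝ => x ^ (-(1 / 2) : ℝ)) ∧
    ∃ η : ℝ, 0 < η ∧ (fun x : ℝ => S f x) =O[atTop] (fun x : ℝ => x ^ (-(1 / 2) - η : ℝ)) := by
  obtain ⟨f, b, C, hb, hMO, h⟩ := Pool.Agent.MP_a187e6.exists_MO_small
  have hO : (fun x : ℝ => S f x) =O[atTop] (fun x : ℝ => x ^ (-(1 / 2) - (b - 1 / 2) : ℝ)) := by
    apply IsBigO.of_bound C
    filter_upwards [eventually_ge_atTop (1 : ℝ)] with x hx
    have h1 := h x hx
    have h2 : (-(1 / 2) - (b - 1 / 2) : ℝ) = -b := by ring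
    rw [h2, Real.norm_eq_abs, abs_of_nonneg (Real.rpow_nonneg (by linarith) _)]
    exact h1
  have ho : (fun x : ℝ => x ^ (-(1 / 2) - (b - 1 / 2) : ℝ)) =o[atTop]
      (fun x : ℝ => x ^ (-(1 / 2) : ℝ)) := by
    rw [isLittleO_iff_tendsto']
    · have h1 : Tendsto (fun x : ℝ => x ^ (-(b - 1 / 2))) atTop (nhds 0) :=
        tendsto_rpow_neg_atTop (by linarith)
      refine h1.congr' ?_
      filter_upwards [eventually_gt_atTop (0 : ℝ)] with x hx
      rw [← Real.rpow_sub hx]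
      congr 1
      ring
    · filter_upwards [eventually_gt_atTop (0 : ℝ)] with x hx h0
      exact absurd h0 (Real.rpow_pos_of_pos hx _).ne'
  exact ⟨f, hMO, hO.trans_isLittleO ho, b - 1 / 2, by linarith, hO⟩

end Pool.Agent.Results.MP_a187e6_nt.CounterexampleQ1
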