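import Pool.Agent.MOFunctions.Basic

open Filter Topology

namespace Pool.Agent.Results.MP_a187e6_nt.OmegaOneOverX

open Pool.Agent.MOFunctions

/-- For every MO function `f`, `limsup x |S_f(x)| ≥ 1/2`, in the form: for every `c < 1/2` there are
arbitrarily large real `x` with `|S_f(x)| > c / x`. -/
theorem result (f : ℕ → ℂ) (hf : IsMO f) (c : ℝ) (hc : c < 1 / 2) :
    ∃ᶠ x : ℝ in atTop, c / x < ‖S f x‖ := by
  have hmain := key_real hf (K := 1) le_rfl (L := 0) (C₀ := 0) le_rfl
    (fun σ hσ hσ1 s hs => by simp) (c := c) (by linarith)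
  simpa [Real.rpow_neg_one, div_eq_mul_inv] using hmain

end Pool.Agent.Results.MP_a187e6_nt.OmegaOneOverX
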