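import Pool.Agent.MOFunctions.Basic

open Filter Topology

namespace Pool.Agent.Results.MP_a187e6_nt.SmallOnPrimes

open Pool.Agent.MOFunctions

/-- Let `f` be an MO function whose values on the primes satisfy, for some constants `L` and `C`,
`sum_p |f(p)| p^(-σ) ≤ L log (1/σ) + C` for all `0 < σ < 1` (the series over all primes converging).
Then `limsup x^(1/2) |S_f(x)| ≥ (1 - L) / 2`, in the form: for every `c < (1 - L) / 2` there are
arbitrarily large real `x` with `|S_f(x)| > c x^(-1/2)`. For `L < 1` this is the assertion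
`S_f(x) = Ω(x^(-1/2))` of Q1 for these functions, with an explicit constant. -/
theorem result (f : ℕ → ℂ) (hf : IsMO f) (L C : ℝ)
    (hsum : ∀ σ : ℝ, 0 < σ → σ < 1 →
      Summable (fun p : Nat.Primes => ‖f (p : ℕ)‖ * ((p : ℕ) : ℝ) ^ (-σ)) ∧
      ∑' p : Nat.Primes, ‖f (p : ℕ)‖ * ((p : ℕ) : ℝ) ^ (-σ) ≤ L * Real.log (1 / σ) + C)
    (c : ℝ) (hc : c < (1 - L) / 2) :
    ∃ᶠ x : ℝ in atTop, c * x ^ (-(1 / 2 : ℝ)) < ‖S f x‖ := by
  -- the constant `L` is nonnegative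
  have hL : 0 ≤ L := by
    by_contra hneg
    push Not at hneg
    obtain ⟨σ, hσ0, hσ1, hσ⟩ : ∃ σ : ℝ, 0 < σ ∧ σ < 1 ∧ L * Real.log (1 / σ) + C < 0 := by
      refine ⟨Real.exp (-((|C| + 1) / (-L))), Real.exp_pos _, ?_, ?_⟩
      · rw [Real.exp_lt_one_iff]
        have : 0 < (|C| + 1) / (-L) := by
          apply div_pos (by positivity) (by linarith)
        linarith
      · rw [one_div, Real.log_inv, Real.log_exp]
        have hL' : L ≠ 0 := ne_of_lt hneg
        have h1 : L * - -((|C| + 1) / (-L)) = -(|C| + 1) := by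
          rw [neg_neg, mul_div_assoc', mul_comm, div_neg, mul_div_assoc, div_self hL', mul_one]
        rw [h1]
        linarith [le_abs_self C]
    have h := (hsum σ hσ0 hσ1).2
    have h0 : 0 ≤ ∑' p : Nat.Primes, ‖f (p : ℕ)‖ * ((p : ℕ) : ℝ) ^ (-σ) :=
      tsum_nonneg (fun p => by positivity)
    linarith
  have hmain := key_real hf (K := 2) (by norm_num) (L := L) (C₀ := C) hL
    (fun σ hσ hσ1 s hs => ?_) (c := c) (by linarith)
  · simpa using hmain
  · obtain ⟨h1, h2⟩ := hsum σ hσ hσ1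
    have h3 : ∑ p ∈ s, ∑ j ∈ Finset.Ico (1 : ℕ) 2, ‖f (p ^ j)‖ * (p : ℝ) ^ (-(j * σ)) =
        ∑ p ∈ s, ‖f p‖ * (p : ℝ) ^ (-σ) := by
      apply Finset.sum_congr rfl
      intro p _
      rw [show Finset.Ico (1 : ℕ) 2 = {1} from rfl, Finset.sum_singleton]
      simp
    rw [h3]
    refine le_trans ?_ h2
    let e : {x // x ∈ s} ↪ Nat.Primes :=
      ⟨fun p => ⟨p.1, hs p.1 p.2⟩, fun a b h => Subtype.ext (congrArg (fun q : Nat.Primes => (q : ℕ)) h)⟩
    have h4 : ∑ p ∈ s, ‖f p‖ * (p : ℝ) ^ (-σ) =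
        ∑ p ∈ s.attach.map e, ‖f (p : ℕ)‖ * ((p : ℕ) : ℝ) ^ (-σ) := by
      rw [Finset.sum_map]
      exact (Finset.sum_attach s (fun p => ‖f p‖ * (p : ℝ) ^ (-σ))).symm
    rw [h4]
    exact h1.sum_le_tsum (s.attach.map e) (fun p _ => by positivity)

end Pool.Agent.Results.MP_a187e6_nt.SmallOnPrimes
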